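import Pool.Agent.Helper13.TD.Fin

/-!
# Groups acting on simply connected typed complexes of dimension two
-/

set_option autoImplicit false

namespace Pool.Agent.Helper13.TD

open Relation Pool.Agent.Helper29.BA Pool.Agent.Helper29.PA Pool.Agent.Helper3.FJ
  Pool.Agent.Helper3.FJ.Cpx Pool.Agent.Helper9.TD
open Pool.Agent.Helper63.TD (ActsT.sub colim_clT exists_clT cover_sb_tk sbcov_actsT sbcov_mem)

variable {S V : Type} {M : CoxeterMatrix S} {X : Cpx V} {τ : V → Finset S} {G : Type} [Group G]
  [MulAction G V] [Finite S]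

/-- Groups with a homomorphism to the integers which is injective on the stabilizers. -/
theorem int_genT {C : ∀ (G : Type) [Group G], Prop} (hC : CatClass C) (hE : ExtClass C)
    (h2 : TwoDim M) (hT : TK M X τ) (hX : X.SimplyConn) (hA : ActsT G X τ)
    (f : G →* Multiplicative ℤ)
    (hf : ∀ (v : V) (g : G), g • v = v → f g = 1 → g = 1) : C G := by
  refine of_fg hC.toClosedClass hA.acts fun T S' hS hAT => ?_
  have hA' := ActsT.sub hA T
  refine colim_clT (τ := τ) hC.toClosedClass hAT hX S' hS (exists_clT hT)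
    fun v₀ s hv₀ hs => ?_
  refine int_memT hE hC h2 (cover_sb_tk hT hA' hs hv₀) cover_simplyConn (sbcov_actsT hA' s)
    (cover_cocompact (sb_acts hAT s) s hv₀ (fun u v h => h.2) (fun u v w h => h.2))
    ((f.comp T.subtype).comp (prG v₀ (sb_acts hAT s))) fun p x hx h1 => ?_
  exact cover_inj (f.comp T.subtype) x p hx h1 fun g hg hg' => Subtype.ext (hf _ g.1 hg hg')

/-- Groups with a homomorphism to a group of the class which is injective on the stabilizers. -/
theorem map_genT {C : ∀ (G : Type) [Group G], Prop} (hC : CatClass C) (hE : ExtClass C)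
    (h2 : TwoDim M) (hT : TK M X τ) (hX : X.SimplyConn) (hA : ActsT G X τ)
    {Q : Type} [Group Q] (f : G →* Q) (hQ : C Q)
    (hf : ∀ (v : V) (g : G), g • v = v → f g = 1 → g = 1) : C G := by
  refine hE.ext G Q f hQ fun q => ?_
  obtain ⟨D, hD⟩ : ∃ D : Subgroup G, D = (Subgroup.zpowers q).comap f := ⟨_, rfl⟩
  have hD' : ∀ d ∈ D, f d ∈ Subgroup.zpowers q := fun d hd => by
    rw [hD] at hd
    exact hd
  rw [← hD]
  have hAD := ActsT.sub hA D
  by_cases hfin' : IsOfFinOrder q
  · refine Pool.Agent.Helper26.TD.properT hT hC h2 hX hAD fun v => ?_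
    have h2 : Finite (Subgroup.zpowers q) := finite_zpowers.2 hfin'
    refine Finite.of_injective (β := Subgroup.zpowers q)
      (fun d : MulAction.stabilizer D v => ⟨f d.1.1, hD' _ d.1.2⟩) ?_
    intro a b hab
    have h3 : f a.1.1 = f b.1.1 := congrArg Subtype.val hab
    have h4 : (b.1.1)⁻¹ * a.1.1 = 1 := by
      refine hf v _ ?_ (by rw [map_mul, map_inv, h3, inv_mul_cancel])
      have h5 : a.1.1 • v = v := a.2
      have h6 : b.1.1 • v = v := b.2
      rw [mul_smul, h5, inv_smul_eq_iff, h6]
    exact Subtype.ext (Subtype.ext (inv_mul_eq_one.1 h4).symm)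
  · have hinj : ∀ m n : ℤ, q ^ m = q ^ n → m = n := by
      intro m n hmn
      by_contra hne
      refine hfin' (isOfFinOrder_iff_zpow_eq_one.2 ⟨m - n, sub_ne_zero.2 hne, ?_⟩)
      rw [zpow_sub, hmn, mul_inv_cancel]
    choose e he using fun d : D => hD' d.1 d.2
    have he' : ∀ d : D, q ^ e d = f d.1 := he
    let φ : D →* Multiplicative ℤ :=
      { toFun := fun d => Multiplicative.ofAdd (e d)
        map_one' := by
          rw [ofAdd_eq_one]
          exact hinj _ _ (by rw [he', zpow_zero, OneMemClass.coe_one, map_one])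
        map_mul' := fun a b => by
          rw [← ofAdd_add]
          congr 1
          exact hinj _ _ (by rw [he', zpow_add, he', he', Subgroup.coe_mul, map_mul]) }
    refine int_genT hC hE h2 hT hX hAD φ fun v d hd h1 => Subtype.ext (hf v d.1 hd ?_)
    have h2 : e d = 0 := by
      have : Multiplicative.ofAdd (e d) = 1 := h1
      rwa [ofAdd_eq_one] at this
    rw [← he', h2, zpow_zero]

/-- **Main theorem.** Groups `G` such that for each finite set of vertices there is a homomorphism
to a group of the class which is injective on the stabilizers of these vertices. -/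
theorem mainT {C : ∀ (G : Type) [Group G], Prop} (hC : CatClass C) (hE : ExtClass C)
    (h2 : TwoDim M) (hT : TK M X τ) (hA : ActsT G X τ) (hX : X.SimplyConn)
    (hQ : ∀ K : Finset V, ∃ (Q : Type) (_ : Group Q) (f : G →* Q), C Q ∧
      ∀ v ∈ K, ∀ g : G, g • v = v → f g = 1 → g = 1) : C G := by
  refine of_fg hC.toClosedClass hA.acts fun T S' hS hAT => ?_
  have hA' := ActsT.sub hA T
  refine colim_clT (τ := τ) hC.toClosedClass hAT hX S' hS (exists_clT hT)
    fun v₀ s hv₀ hs => ?_
  obtain ⟨Q, _, f, hCQ, hf⟩ := hQ s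
  refine map_genT hC hE h2 (cover_sb_tk hT hA' hs hv₀) cover_simplyConn (sbcov_actsT hA' s)
    ((f.comp T.subtype).comp (prG v₀ (sb_acts hAT s))) hCQ fun p x hx h1 => ?_
  refine cover_inj (f.comp T.subtype) x p hx h1 fun g hg hg' => ?_
  obtain ⟨γ, hγ⟩ := sbcov_mem hv₀ p
  have h3 : γ.1 * g.1 * γ.1⁻¹ = 1 := by
    refine hf _ hγ _ ?_ ?_
    · change (γ.1 * g.1 * γ.1⁻¹) • γ.1 • p.1.1 = γ.1 • p.1.1
      rw [mul_smul, inv_smul_smul, mul_smul]
      congr 1
    · have h4 : f g.1 = 1 := hg'
      rw [map_mul, map_mul, h4, mul_one, ← map_mul, mul_inv_cancel, map_one]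
  apply Subtype.ext
  have : g.1 = γ.1⁻¹ * (γ.1 * g.1 * γ.1⁻¹) * γ.1 := by group
  rw [this, h3]
  simp

end Pool.Agent.Helper13.TD
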